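import Pool.Agent.MNT.StmtsG

/-!
# MNT, row PTA: product of two ideals in the coordinate ring
-/

set_option autoImplicit false

namespace Pool.Agent.MNT.H17

open Polynomial NumberField

/-- **PTA**. -/
theorem pta : PtaStmt := by
  intro K _ f x y h2 hy hy0
  unfold ptI
  rw [Ideal.span_pair_mul_span_pair]
  have hdvd : (X - C x) ∣ f - C (f.eval x) := X_sub_C_dvd_sub_C_eval
  obtain ⟨G, hG⟩ := hdvd
  have hQQ : (⟨-C y, 1⟩ : H58Q.Q K f) * ⟨-C (-y), 1⟩ = (⟨G, 0⟩ : H58Q.Q K f) * ⟨X - C x, 0⟩ := by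
    have h1 : f - C y * C y = (X - C x) * G := by
      rw [← hG, ← hy, pow_two, C_mul]
    refine QuadraticAlgebra.ext ?_ ?_
    · simp only [QuadraticAlgebra.re_mul, C_neg]
      linear_combination h1
    · simp only [QuadraticAlgebra.im_mul, C_neg]
      ring
  have hP : (⟨X - C x, 0⟩ : H58Q.Q K f) = (⟨C (2 * y)⁻¹, 0⟩ : H58Q.Q K f) *
      ((⟨X - C x, 0⟩ : H58Q.Q K f) * ⟨-C (-y), 1⟩) +
      (⟨-C (2 * y)⁻¹, 0⟩ : H58Q.Q K f) * ((⟨-C y, 1⟩ : H58Q.Q K f) * ⟨X - C x, 0⟩) := by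
    have h1 : C (2 * y)⁻¹ * (2 * C y) = (1 : K[X]) := by
      have h3 : (2 * C y : K[X]) = C (2 * y) := by
        rw [C_mul]
        rfl
      rw [h3, ← C_mul, inv_mul_cancel₀ (mul_ne_zero h2 hy0), C_1]
    refine QuadraticAlgebra.ext ?_ ?_
    · simp only [QuadraticAlgebra.re_mul, QuadraticAlgebra.im_mul, QuadraticAlgebra.re_add, C_neg]
      linear_combination (-(X - C x)) * h1
    · simp only [QuadraticAlgebra.re_mul, QuadraticAlgebra.im_mul, QuadraticAlgebra.im_add, C_neg]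
      ring
  apply le_antisymm
  · rw [Ideal.span_le]
    rintro z (rfl | rfl | rfl | rfl)
    · exact Ideal.mul_mem_left _ _ (Ideal.mem_span_singleton_self _)
    · exact Ideal.mul_mem_right _ _ (Ideal.mem_span_singleton_self _)
    · exact Ideal.mul_mem_left _ _ (Ideal.mem_span_singleton_self _)
    · rw [SetLike.mem_coe, hQQ]
      exact Ideal.mul_mem_left _ _ (Ideal.mem_span_singleton_self _)
  · rw [Ideal.span_singleton_le_iff_mem]
    have h1 := Ideal.add_mem (Ideal.span {(⟨X - C x, 0⟩ : H58Q.Q K f) * ⟨X - C x, 0⟩,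
        (⟨X - C x, 0⟩ : H58Q.Q K f) * ⟨-C (-y), 1⟩, (⟨-C y, 1⟩ : H58Q.Q K f) * ⟨X - C x, 0⟩,
        (⟨-C y, 1⟩ : H58Q.Q K f) * ⟨-C (-y), 1⟩})
      (Ideal.mul_mem_left _ (⟨C (2 * y)⁻¹, 0⟩ : H58Q.Q K f)
        (Ideal.subset_span (Or.inr (Or.inl rfl))))
      (Ideal.mul_mem_left _ (⟨-C (2 * y)⁻¹, 0⟩ : H58Q.Q K f)
        (Ideal.subset_span (Or.inr (Or.inr (Or.inl rfl)))))
    rw [← hP] at h1
    exact h1

end Pool.Agent.MNT.H17
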